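import Mathlib

/-!
Varieties of Lie algebras over a field `k`, relatively finitely presented members, residually finite
dimensional Lie algebras.
-/

set_option autoImplicit false

namespace Pool.Agent.Lib.MP_240c17_al

universe u

variable {k : Type u} [Field k]

/-- `L` belongs to the variety given by the set `Id` of identities: every element of `Id`, a Lie
polynomial in the variables `x₀, x₁, x₂, …`, vanishes on `L`. -/
def InVariety (Id : Set (FreeLieAlgebra k ℕ)) (L : Type u) [LieRing L] [LieAlgebra k L] : Prop :=
  ∀ g ∈ Id, ∀ ρ : ℕ → L, FreeLieAlgebra.lift k ρ g = 0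

/-- The verbal ideal of the free Lie algebra on `n` generators: the ideal generated by all values of
the identities. -/
noncomputable def verbalIdeal (Id : Set (FreeLieAlgebra k ℕ)) (n : ℕ) : LieIdeal k (FreeLieAlgebra k (Fin n)) :=
  LieSubmodule.lieSpan k (FreeLieAlgebra k (Fin n))
    {w | ∃ g ∈ Id, ∃ ρ : ℕ → FreeLieAlgebra k (Fin n), w = FreeLieAlgebra.lift k ρ g}

/-- `L` is finitely presented relative to the variety given by `Id`: there is a surjection of a free
Lie algebra of finite rank onto `L` whose kernel is generated, as an ideal, by the verbal ideal and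
finitely many elements. (Such an `L` lies in the variety.) -/
def RelFinitelyPresented (Id : Set (FreeLieAlgebra k ℕ)) (L : Type u) [LieRing L]
    [LieAlgebra k L] : Prop :=
  ∃ (n : ℕ) (π : FreeLieAlgebra k (Fin n) →ₗ⁅k⁆ L) (S : Finset (FreeLieAlgebra k (Fin n))),
    Function.Surjective π ∧
      π.ker = verbalIdeal Id n ⊔
        LieSubmodule.lieSpan k (FreeLieAlgebra k (Fin n)) (S : Set (FreeLieAlgebra k (Fin n)))

/-- Residually finite dimensional Lie algebras. -/
def ResiduallyFiniteDimensional (k : Type u) [Field k] (L : Type u) [LieRing L]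
    [LieAlgebra k L] : Prop :=
  ∀ x : L, x ≠ 0 → ∃ I : LieIdeal k L, FiniteDimensional k (L ⧸ I) ∧ x ∉ I

end Pool.Agent.Lib.MP_240c17_al
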