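import Mathlib

/-!
The quasi-identity which holds in all finite dimensional Lie algebras.
-/

set_option autoImplicit false

namespace Pool.Agent.Lib.MP_240c17_al

universe u v

variable {k : Type u} [Field k]

theorem lie_lie_right {L : Type v} [LieRing L] (a l z : L) :
    ⁅a, ⁅l, z⁆⁆ = ⁅⁅a, l⁆, z⁆ - ⁅⁅a, z⁆, l⁆ := by
  rw [leibniz_lie a l z, ← lie_skew l ⁅a, z⁆]
  abel

/-- In a finite dimensional Lie algebra the relations `[x,z] = 0`, `[a,z] = a`,
`b₁ + [b₁,z] = b` for `b₁ = b - [b,x]`, and `[a,b] = 0` imply `[a,b₁] = 0`. -/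
theorem fd_quasi {L : Type v} [LieRing L] [LieAlgebra k L] [FiniteDimensional k L] (x z a b : L)
    (h1 : ⁅x, z⁆ = 0) (h2 : ⁅a, z⁆ = a) (h3 : b - ⁅b, x⁆ + ⁅b - ⁅b, x⁆, z⁆ = b)
    (h4 : ⁅a, b⁆ = 0) : ⁅a, b - ⁅b, x⁆⁆ = 0 := by
  -- the operators `T = 1 + z` and `U = 1 - x`
  let Z : Module.End k L := -(LieAlgebra.ad k L z)
  let X : Module.End k L := -(LieAlgebra.ad k L x)
  have hZ : ∀ l, Z l = ⁅l, z⁆ := by
    intro l
    show -(⁅z, l⁆) = _
    rw [lie_skew]
  have hX : ∀ l, X l = ⁅l, x⁆ := by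
    intro l
    show -(⁅x, l⁆) = _
    rw [lie_skew]
  let T : Module.End k L := 1 + Z
  let U : Module.End k L := 1 - X
  have hT : ∀ l, T l = l + ⁅l, z⁆ := by
    intro l
    show l + Z l = _
    rw [hZ]
  have hU : ∀ l, U l = l - ⁅l, x⁆ := by
    intro l
    show l - X l = _
    rw [hX]
  have hcomm : ∀ l, U (T l) = T (U l) := by
    intro l
    rw [hU, hT, hT, hU]
    have e : ⁅⁅l, z⁆, x⁆ = ⁅⁅l, x⁆, z⁆ := by
      have e1 := lie_lie_right l x z
      rw [h1, lie_zero] at e1
      exact (sub_eq_zero.mp e1.symm).symm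
    rw [add_lie, sub_lie, e]
    abel
  have hTU : T (U b) = b := by
    rw [hU, hT]
    exact h3
  -- the span of the vectors `T^j b`
  let P : Submodule k L := Submodule.span k (Set.range fun j : ℕ => (T ^ j) b)
  have hPT : ∀ l ∈ P, T l ∈ P := by
    intro l hl
    have h5 : P ≤ P.comap T := by
      refine Submodule.span_le.mpr ?_
      rintro _ ⟨j, rfl⟩
      refine Submodule.subset_span ⟨j + 1, ?_⟩
      show (T ^ (j + 1)) b = T ((T ^ j) b)
      rw [pow_succ']
      rfl
    exact h5 hl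
  have hbP : b ∈ P := Submodule.subset_span ⟨0, by simp⟩
  have hUT : ∀ l ∈ P, T (U l) = l := by
    intro l hl
    have h5 : P ≤ LinearMap.ker (T * U - 1) := by
      refine Submodule.span_le.mpr ?_
      rintro _ ⟨j, rfl⟩
      show (T * U - 1) ((T ^ j) b) = 0
      have h6 : ∀ j : ℕ, U ((T ^ j) b) = (T ^ j) (U b) := by
        intro j
        induction j with
        | zero => simp
        | succ j ih =>
          rw [pow_succ']
          show U (T ((T ^ j) b)) = T ((T ^ j) (U b))
          rw [hcomm, ih]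
      have h7 : T (U ((T ^ j) b)) = (T ^ j) b := by
        rw [h6]
        have h8 : T ((T ^ j) (U b)) = (T ^ j) (T (U b)) := by
          have : T * T ^ j = T ^ j * T := (Commute.refl T).pow_right j |>.eq
          exact congrArg (fun f : Module.End k L => f (U b)) this
        rw [h8, hTU]
      show T (U ((T ^ j) b)) - (T ^ j) b = 0
      rw [h7, sub_self]
    have h9 := h5 hl
    have h10 : T (U l) - l = 0 := h9
    exact sub_eq_zero.mp h10
  -- `T` is injective, hence surjective on `P`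
  have hinj : Function.Injective (T.restrict hPT) := by
    rw [← LinearMap.ker_eq_bot, LinearMap.ker_eq_bot']
    rintro ⟨l, hl⟩ h0
    have h5 : T l = 0 := congrArg Subtype.val h0
    have h6 : U (T l) = l := by rw [hcomm, hUT l hl]
    rw [h5, map_zero] at h6
    exact Subtype.ext h6.symm
  obtain ⟨⟨p, hp⟩, hpb⟩ := (LinearMap.injective_iff_surjective.mp hinj) ⟨b, hbP⟩
  have hpb' : T p = b := congrArg Subtype.val hpb
  -- the centralizer of `a` contains `P`
  have hcen : ∀ l ∈ P, ⁅a, l⁆ = 0 := by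
    have h5 : ∀ l, ⁅a, l⁆ = 0 → ⁅a, T l⁆ = 0 := by
      intro l hl
      rw [hT, lie_add, hl, zero_add, lie_lie_right, hl, h2, hl, zero_lie, sub_zero]
    have h6 : P ≤ LinearMap.ker (LieAlgebra.ad k L a : Module.End k L) := by
      refine Submodule.span_le.mpr ?_
      rintro _ ⟨j, rfl⟩
      show ⁅a, (T ^ j) b⁆ = 0
      induction j with
      | zero => simpa using h4
      | succ j ih =>
        rw [pow_succ']
        exact h5 _ ih
    intro l hl
    exact h6 hl
  have hfin : U b = p := by rw [← hpb', hcomm, hUT p hp]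
  rw [← hU, hfin]
  exact hcen p hp

/-- the quotient map as a morphism of Lie algebras -/
def qMk {L : Type v} [LieRing L] [LieAlgebra k L] (I : LieIdeal k L) : L →ₗ⁅k⁆ L ⧸ I where
  toLinearMap := I.toSubmodule.mkQ
  map_lie' := rfl

theorem qMk_surjective {L : Type v} [LieRing L] [LieAlgebra k L] (I : LieIdeal k L) :
    Function.Surjective (qMk I) := Submodule.mkQ_surjective _

theorem qMk_eq_zero {L : Type v} [LieRing L] [LieAlgebra k L] (I : LieIdeal k L) (x : L) :
    qMk I x = 0 ↔ x ∈ I := Submodule.Quotient.mk_eq_zero I.toSubmodule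

theorem qMk_ker {L : Type v} [LieRing L] [LieAlgebra k L] (I : LieIdeal k L) :
    (qMk I).ker = I := by
  ext x
  rw [LieHom.mem_ker, qMk_eq_zero]

end Pool.Agent.Lib.MP_240c17_al
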