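import Pool.Agent.Lib.MP_240c17_al.Tri

/-!
The algebra of triangular matrices over the ring of functions on `kˣ` and its ideal.
-/

set_option autoImplicit false
set_option linter.unusedSimpArgs false

namespace Pool.Agent.Lib.MP_240c17_al

universe u

variable {k : Type u} [Field k]

attribute [local instance 100] LieRing.ofAssociativeRing

/-- a Lie subalgebra containing the images of the generators contains the image -/
theorem lift_mem {X : Type*} {L : Type*} [LieRing L] [LieAlgebra k L] (K : LieSubalgebra k L)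
    (f : X → L) (hf : ∀ x, f x ∈ K) (w : FreeLieAlgebra k X) : FreeLieAlgebra.lift k f w ∈ K := by
  have h : FreeLieAlgebra.lift k f = K.incl.comp (FreeLieAlgebra.lift k (fun x => ⟨f x, hf x⟩)) := by
    apply FreeLieAlgebra.hom_ext
    intro x
    rw [LieHom.comp_apply, FreeLieAlgebra.lift_of_apply, FreeLieAlgebra.lift_of_apply]
    rfl
  rw [h]
  exact (FreeLieAlgebra.lift k (fun x => (⟨f x, hf x⟩ : K)) w).2

/-- matrices over the ring of functions on `kˣ` -/
abbrev MF (k : Type u) [Field k] : Type u := Matrix (Fin 3) (Fin 3) (kˣ → k)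

/-- the function `τ ↦ τ` -/
def fT (k : Type u) [Field k] : kˣ → k := fun τ => (τ : k)
/-- the function `τ ↦ τ⁻¹` -/
def fS (k : Type u) [Field k] : kˣ → k := fun τ => ((τ⁻¹ : kˣ) : k)

theorem fT_mul_fS : fT k * fS k = 1 := by
  funext τ
  simp [fT, fS]

theorem fS_mul_fT : fS k * fT k = 1 := by rw [mul_comm, fT_mul_fS]

/-- the images of the generators `x, z, a, b` -/
def gen (k : Type u) [Field k] : Fin 4 → MF k :=
  ![Matrix.diagonal ![0, fT k, 1], Matrix.diagonal ![0, 1, fS k], Matrix.single 0 1 1,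
    Matrix.single 1 2 1]

/-- the upper triangular matrices with diagonal `(0, α T + β, α + β T⁻¹)` -/
def triAlg (k : Type u) [Field k] : LieSubalgebra k (MF k) where
  carrier := {M | M 1 0 = 0 ∧ M 2 0 = 0 ∧ M 2 1 = 0 ∧ M 0 0 = 0 ∧
    ∃ α β : k, M 1 1 = α • fT k + β • 1 ∧ M 2 2 = α • 1 + β • fS k}
  add_mem' := by
    rintro M N ⟨h1, h2, h3, h4, α, β, h5, h6⟩ ⟨n1, n2, n3, n4, α', β', n5, n6⟩
    refine ⟨?_, ?_, ?_, ?_, α + α', β + β', ?_, ?_⟩
    · rw [Matrix.add_apply, h1, n1, add_zero]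
    · rw [Matrix.add_apply, h2, n2, add_zero]
    · rw [Matrix.add_apply, h3, n3, add_zero]
    · rw [Matrix.add_apply, h4, n4, add_zero]
    · rw [Matrix.add_apply, h5, n5, add_smul, add_smul]; abel
    · rw [Matrix.add_apply, h6, n6, add_smul, add_smul]; abel
  zero_mem' := ⟨rfl, rfl, rfl, rfl, 0, 0, by simp, by simp⟩
  smul_mem' := by
    rintro c M ⟨h1, h2, h3, h4, α, β, h5, h6⟩
    refine ⟨?_, ?_, ?_, ?_, c * α, c * β, ?_, ?_⟩
    · rw [Matrix.smul_apply, h1, smul_zero]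
    · rw [Matrix.smul_apply, h2, smul_zero]
    · rw [Matrix.smul_apply, h3, smul_zero]
    · rw [Matrix.smul_apply, h4, smul_zero]
    · rw [Matrix.smul_apply, h5, smul_add, smul_smul, smul_smul]
    · rw [Matrix.smul_apply, h6, smul_add, smul_smul, smul_smul]
  lie_mem' := by
    rintro M N ⟨h1, h2, h3, h4, α, β, h5, h6⟩ ⟨n1, n2, n3, n4, α', β', n5, n6⟩
    refine ⟨?_, ?_, ?_, ?_, 0, 0, ?_, ?_⟩
    · rw [Ring.lie_def, Matrix.sub_apply, Matrix.mul_apply, Matrix.mul_apply]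
      simp [Fin.sum_univ_three, h1, h2, h3, h4, n1, n2, n3, n4]
    · rw [Ring.lie_def, Matrix.sub_apply, Matrix.mul_apply, Matrix.mul_apply]
      simp [Fin.sum_univ_three, h1, h2, h3, h4, n1, n2, n3, n4]
    · rw [Ring.lie_def, Matrix.sub_apply, Matrix.mul_apply, Matrix.mul_apply]
      simp [Fin.sum_univ_three, h1, h2, h3, h4, n1, n2, n3, n4]
    · rw [Ring.lie_def, Matrix.sub_apply, Matrix.mul_apply, Matrix.mul_apply]
      simp [Fin.sum_univ_three, h1, h2, h3, h4, n1, n2, n3, n4]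
    · rw [Ring.lie_def, Matrix.sub_apply, Matrix.mul_apply, Matrix.mul_apply]
      simp [Fin.sum_univ_three, h1, h2, h3, h4, n1, n2, n3, n4, mul_comm]
    · rw [Ring.lie_def, Matrix.sub_apply, Matrix.mul_apply, Matrix.mul_apply]
      simp [Fin.sum_univ_three, h1, h2, h3, h4, n1, n2, n3, n4, mul_comm]

theorem gen_mem (i : Fin 4) : gen k i ∈ triAlg k := by
  fin_cases i
  · refine ⟨rfl, rfl, rfl, rfl, 1, 0, ?_, ?_⟩
    · show fT k = _
      simp
    · show (1 : kˣ → k) = _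
      simp
  · refine ⟨rfl, rfl, rfl, rfl, 0, 1, ?_, ?_⟩
    · show (1 : kˣ → k) = _
      simp
    · show fS k = _
      simp
  · refine ⟨?_, ?_, ?_, ?_, 0, 0, ?_, ?_⟩ <;>
      simp [gen, Matrix.single_apply]
  · refine ⟨?_, ?_, ?_, ?_, 0, 0, ?_, ?_⟩ <;>
      simp [gen, Matrix.single_apply]

/-- evaluation at a point -/
noncomputable def evalAt (τ : kˣ) : MF k →ₗ⁅k⁆ Matrix (Fin 3) (Fin 3) k :=
  ((Pi.evalAlgHom k (fun _ : kˣ => k) τ).mapMatrix : MF k →ₐ[k] Matrix (Fin 3) (Fin 3) k)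

theorem evalAt_apply (τ : kˣ) (M : MF k) (i j : Fin 3) : evalAt τ M i j = M i j τ := rfl

theorem evalAt_isTri (τ : kˣ) {M : MF k} (hM : M ∈ triAlg k) :
    IsTri ((τ⁻¹ : kˣ) : k) (evalAt τ M) := by
  obtain ⟨h1, h2, h3, h4, α, β, h5, h6⟩ := hM
  refine ⟨?_, ?_, ?_, ?_, ?_⟩
  · rw [evalAt_apply, h1]; rfl
  · rw [evalAt_apply, h2]; rfl
  · rw [evalAt_apply, h3]; rfl
  · rw [evalAt_apply, h4]; rfl
  · rw [evalAt_apply, evalAt_apply, h5, h6]
    simp only [fT, fS, Pi.add_apply, Pi.smul_apply, Pi.one_apply, smul_eq_mul, mul_one]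
    rw [mul_add, mul_left_comm, Units.inv_mul, mul_one, mul_comm β]

/-- the identities of the variety hold in the algebra of triangular matrices over functions -/
theorem func_vanish [Infinite k] {Id : Set (FreeLieAlgebra k ℕ)} (hI : NoId Id)
    {g : FreeLieAlgebra k ℕ} (hg : g ∈ Id) (ρ : ℕ → MF k) (hρ : ∀ n, ρ n ∈ triAlg k) :
    FreeLieAlgebra.lift k ρ g = 0 := by
  have h1 : ∀ τ : kˣ, evalAt τ (FreeLieAlgebra.lift k ρ g) = 0 := by
    intro τ
    rw [← LieHom.comp_apply, ← FreeLieAlgebra.lift_comp_of ((evalAt τ).comp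
      (FreeLieAlgebra.lift k ρ))]
    refine tri_vanish hI hg ((τ⁻¹ : kˣ) : k) _ ?_
    intro n
    have e : ((evalAt τ).comp (FreeLieAlgebra.lift k ρ) ∘ FreeLieAlgebra.of k) n =
        evalAt τ (ρ n) := by
      show evalAt τ (FreeLieAlgebra.lift k ρ (FreeLieAlgebra.of k n)) = _
      rw [FreeLieAlgebra.lift_of_apply]
    rw [e]
    exact evalAt_isTri τ (hρ n)
  ext i j τ
  have h2 := congrFun (congrFun (h1 τ) i) j
  exact h2

/-- the space of polynomials in `T⁻¹` -/
def W (k : Type u) [Field k] : Submodule k (kˣ → k) where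
  carrier := {f | ∃ p : Polynomial k, ∀ τ : kˣ, f τ = p.eval ((τ⁻¹ : kˣ) : k)}
  add_mem' := by
    rintro f g ⟨p, hp⟩ ⟨q, hq⟩
    refine ⟨p + q, ?_⟩
    intro τ
    rw [Pi.add_apply, hp, hq, Polynomial.eval_add]
  zero_mem' := ⟨0, by simp⟩
  smul_mem' := by
    rintro c f ⟨p, hp⟩
    refine ⟨Polynomial.C c * p, ?_⟩
    intro τ
    rw [Pi.smul_apply, hp, Polynomial.eval_mul, Polynomial.eval_C, smul_eq_mul]

theorem one_mem_W : (1 : kˣ → k) ∈ W k := ⟨1, by simp⟩

theorem mul_fS_mem_W {f : kˣ → k} (hf : f ∈ W k) : f * fS k ∈ W k := by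
  obtain ⟨p, hp⟩ := hf
  refine ⟨p * Polynomial.X, ?_⟩
  intro τ
  rw [Pi.mul_apply, hp, Polynomial.eval_mul, Polynomial.eval_X]
  rfl

theorem fT_not_mem_W [Infinite k] : fT k ∉ W k := by
  rintro ⟨p, hp⟩
  have h1 : (Polynomial.X * p - 1 : Polynomial k) = 0 := by
    refine Polynomial.eq_zero_of_infinite_isRoot _ ?_
    have h2 : ({0}ᶜ : Set k).Infinite := Set.Finite.infinite_compl (Set.finite_singleton 0)
    refine h2.mono ?_
    intro σ hσ
    have hσ' : σ ≠ 0 := hσ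
    have h3 := hp (Units.mk0 σ hσ')⁻¹
    rw [inv_inv] at h3
    have h4 : σ⁻¹ = p.eval σ := by
      have e1 : fT k (Units.mk0 σ hσ')⁻¹ = σ⁻¹ := by
        simp [fT]
      rw [e1] at h3
      exact h3
    show Polynomial.eval σ (Polynomial.X * p - 1) = 0
    rw [Polynomial.eval_sub, Polynomial.eval_mul, Polynomial.eval_X, ← h4, mul_inv_cancel₀ hσ',
      Polynomial.eval_one, sub_self]
  have h5 := congrArg (Polynomial.eval 0) h1
  simp at h5

/-- the pull-back of the ideal `k[T⁻¹] E₁₃` to the free Lie algebra -/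
noncomputable def pullback (k : Type u) [Field k] : LieIdeal k (FreeLieAlgebra k (Fin 4)) where
  carrier := {w | ∃ f ∈ W k, FreeLieAlgebra.lift k (gen k) w = Matrix.single 0 2 f}
  add_mem' := by
    rintro w w' ⟨f, hf, h⟩ ⟨f', hf', h'⟩
    refine ⟨f + f', (W k).add_mem hf hf', ?_⟩
    rw [map_add, h, h', Matrix.single_add]
  zero_mem' := ⟨0, (W k).zero_mem, by simp⟩
  smul_mem' := by
    rintro c w ⟨f, hf, h⟩
    refine ⟨c • f, (W k).smul_mem c hf, ?_⟩
    rw [map_smul, h, Matrix.smul_single]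
  lie_mem := by
    rintro x w ⟨f, hf, h⟩
    have hx := lift_mem (triAlg k) (gen k) gen_mem x
    obtain ⟨h1, h2, h3, h4, α, β, h5, h6⟩ := hx
    refine ⟨-(α • f + β • (f * fS k)), (W k).neg_mem ((W k).add_mem ((W k).smul_mem α hf)
      ((W k).smul_mem β (mul_fS_mem_W hf))), ?_⟩
    rw [LieHom.map_lie, h, Ring.lie_def]
    set M := FreeLieAlgebra.lift k (gen k) x with hM
    have e1 : M * Matrix.single 0 2 f = 0 := by
      ext i j
      rw [Matrix.mul_apply, Fin.sum_univ_three]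
      fin_cases i <;> simp [Matrix.single_apply, h1, h2, h4]
    have e2 : Matrix.single 0 2 f * M = Matrix.single 0 2 (f * M 2 2) := by
      ext i j
      rw [Matrix.mul_apply, Fin.sum_univ_three]
      fin_cases i <;> fin_cases j <;> simp [Matrix.single_apply, h2, h3]
    rw [e1, e2, zero_sub, h6, ← Matrix.single_neg]
    congr 2
    rw [mul_add]
    simp

end Pool.Agent.Lib.MP_240c17_al
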