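import Mathlib

/-!
Lie monomials in a free Lie algebra: evaluation, degrees, homogeneous components.
-/

set_option autoImplicit false

namespace Pool.Agent.Lib.MP_240c17_al

universe u v

variable {k : Type u} [Field k]

/-- evaluation of a bracket monomial in a Lie ring -/
def evM {X : Type v} {L : Type u} [LieRing L] (f : X → L) : FreeMagma X → L
  | FreeMagma.of x => f x
  | FreeMagma.mul a b => ⁅evM f a, evM f b⁆

/-- every element of the free Lie algebra is a linear combination of monomials -/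
theorem exists_coeff {X : Type v} (w : FreeLieAlgebra k X) :
    ∃ c : FreeMagma X →₀ k, ∀ (L : Type u) [LieRing L] [LieAlgebra k L] (f : X → L),
      FreeLieAlgebra.lift k f w = c.sum (fun ω a => a • evM f ω) := by
  obtain ⟨a, rfl⟩ := Quot.exists_rep w
  refine ⟨a.coeff, ?_⟩
  intro L _ _ f
  have h1 : FreeLieAlgebra.lift k f (Quot.mk _ a) = FreeLieAlgebra.liftAux k f a := rfl
  have h2 : ∀ ω : FreeMagma X, (FreeMagma.lift (β := CommutatorRing L) f ω : L) = evM f ω := by
    intro ω
    induction ω with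
    | ih1 x => rfl
    | ih2 a b ha hb =>
      rw [map_mul, ha, hb]
      rfl
  rw [h1]
  have h3 : (FreeLieAlgebra.liftAux k f a : L) = a.coeff.sum
      (fun ω c => c • (FreeMagma.lift (β := CommutatorRing L) f ω : L)) := rfl
  rw [h3]
  refine Finsupp.sum_congr ?_
  intro ω _
  exact congrArg (fun t : L => a.coeff ω • t) (h2 ω)

/-- the multidegree of a monomial -/
noncomputable def degF {X : Type v} : FreeMagma X → (X →₀ ℕ)
  | FreeMagma.of x => Finsupp.single x 1
  | FreeMagma.mul a b => degF a + degF b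

theorem evM_smul {X : Type v} {L : Type u} [LieRing L] [LieAlgebra k L] (f : X → L) (t : X → k)
    (ω : FreeMagma X) :
    evM (fun i => t i • f i) ω = ((degF ω).prod (fun i n => t i ^ n)) • evM f ω := by
  induction ω with
  | ih1 x =>
    show t x • f x = _
    have : degF (FreeMagma.of x) = Finsupp.single x 1 := rfl
    rw [this, Finsupp.prod_single_index (by simp), pow_one]
    rfl
  | ih2 a b ha hb =>
    have h1 : degF (a * b) = degF a + degF b := rfl
    have h2 : evM (fun i => t i • f i) (a * b) =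
        ⁅evM (fun i => t i • f i) a, evM (fun i => t i • f i) b⁆ := rfl
    have h3 : evM f (a * b) = ⁅evM f a, evM f b⁆ := rfl
    rw [h2, ha, hb, h1, h3, smul_lie, lie_smul, smul_smul, Finsupp.prod_add_index' (by simp)
      (by intro i n m; rw [pow_add])]

open scoped Classical in
/-- homogeneous components of an identity are identities (infinite field) -/
theorem component_eq_zero [Infinite k] {X : Type v} {L : Type u} [LieRing L] [LieAlgebra k L]
    (c : FreeMagma X →₀ k) (f : X → L)
    (h : ∀ t : X → k, c.sum (fun ω a => a • evM (fun i => t i • f i) ω) = 0) (δ : X →₀ ℕ) :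
    ∑ ω ∈ c.support with degF ω = δ, c ω • evM f ω = 0 := by
  refine (Module.forall_dual_apply_eq_zero_iff k _).mp ?_
  intro ℓ
  let P : MvPolynomial X k := ∑ ω ∈ c.support, MvPolynomial.monomial (degF ω) (c ω * ℓ (evM f ω))
  have hP : P = 0 := by
    apply MvPolynomial.funext
    intro t
    rw [map_zero]
    have h1 := congrArg ℓ (h t)
    rw [map_zero] at h1
    rw [← h1]
    simp only [P, map_sum, MvPolynomial.eval_monomial, Finsupp.sum]
    refine Finset.sum_congr rfl ?_
    intro ω _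
    rw [evM_smul, map_smul, map_smul, smul_eq_mul, smul_eq_mul]
    ring
  have h2 := congrArg (MvPolynomial.coeff δ) hP
  simp only [P, MvPolynomial.coeff_sum, MvPolynomial.coeff_monomial, MvPolynomial.coeff_zero] at h2
  rw [map_sum, Finset.sum_filter]
  refine Eq.trans ?_ h2
  refine Finset.sum_congr rfl ?_
  intro ω _
  split_ifs
  · rw [map_smul, smul_eq_mul]
  · rfl

/-- iterated bracket on the right with `y` -/
def rb {L : Type u} [LieRing L] (y : L) (i : ℕ) (l : L) : L := (fun m => ⁅m, y⁆)^[i] l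

theorem rb_zero {L : Type u} [LieRing L] (y l : L) : rb y 0 l = l := rfl

theorem rb_succ {L : Type u} [LieRing L] (y : L) (i : ℕ) (l : L) :
    rb y (i + 1) l = ⁅rb y i l, y⁆ := by
  unfold rb
  rw [Function.iterate_succ_apply']

/-- monomials without the letters `1`, `2` -/
theorem nf00 (ω : FreeMagma (Fin 3)) (h1 : degF ω 1 = 0) (h2 : degF ω 2 = 0) :
    ∃ κ : k, (degF ω 0 ≠ 1 → κ = 0) ∧ ∀ (L : Type u) [LieRing L] [LieAlgebra k L] (f : Fin 3 → L),
      evM f ω = κ • f 0 := by
  induction ω with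
  | ih1 x =>
    have hd : degF (FreeMagma.of x) = Finsupp.single x 1 := rfl
    rw [hd] at h1 h2
    fin_cases x
    · refine ⟨1, ?_, ?_⟩
      · intro h
        exact absurd (by rw [hd]; simp) h
      · intro L _ _ f
        rw [one_smul]
        rfl
    · simp at h1
    · simp at h2
  | ih2 a b ha hb =>
    have hd : degF (a * b) = degF a + degF b := rfl
    rw [hd, Finsupp.add_apply] at h1 h2
    obtain ⟨κ, _, hκ⟩ := ha (by omega) (by omega)
    obtain ⟨κ', _, hκ'⟩ := hb (by omega) (by omega)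
    refine ⟨0, fun _ => rfl, ?_⟩
    intro L _ _ f
    have h3 : evM f (a * b) = ⁅evM f a, evM f b⁆ := rfl
    rw [h3, hκ L f, hκ' L f, smul_lie, lie_smul, lie_self]
    simp

/-- `r` brackets with `y` of a scalar multiple of `y` -/
theorem lie_smul_self_right {L : Type u} [LieRing L] [LieAlgebra k L] (y l : L) (κ : k) (i : ℕ) :
    ⁅rb y i l, κ • y⁆ = κ • rb y (i + 1) l := by
  rw [lie_smul, rb_succ]

theorem lie_smul_self_left {L : Type u} [LieRing L] [LieAlgebra k L] (y l : L) (κ : k) (i : ℕ) :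
    ⁅κ • y, rb y i l⁆ = (-κ) • rb y (i + 1) l := by
  rw [smul_lie, rb_succ, ← lie_skew, neg_smul, smul_neg]

/-- monomials with exactly one letter `j` different from `0` -/
theorem nf10 (j j' : Fin 3) (hj : j ≠ 0) (hj' : j' ≠ 0) (hjj : j' ≠ j) (ω : FreeMagma (Fin 3))
    (h1 : degF ω j = 1) (h2 : degF ω j' = 0) :
    ∃ κ : k, ∀ (L : Type u) [LieRing L] [LieAlgebra k L] (f : Fin 3 → L),
      evM f ω = κ • rb (f 0) (degF ω 0) (f j) := by
  have hall : ∀ i : Fin 3, i = 0 ∨ i = j ∨ i = j' := by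
    intro i
    omega
  induction ω with
  | ih1 x =>
    have hd : degF (FreeMagma.of x) = Finsupp.single x 1 := rfl
    rw [hd] at h1 h2
    rcases hall x with rfl | rfl | rfl
    · rw [Finsupp.single_apply, if_neg hj.symm] at h1
      omega
    · refine ⟨1, ?_⟩
      intro L _ _ f
      rw [one_smul, hd, Finsupp.single_apply, if_neg hj]
      rfl
    · rw [Finsupp.single_apply, if_pos rfl] at h2
      omega
  | ih2 a b ha hb =>
    have hd : degF (a * b) = degF a + degF b := rfl
    rw [hd, Finsupp.add_apply] at h1 h2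
    have hz : ∀ c : FreeMagma (Fin 3), degF c j = 0 → degF c j' = 0 →
        ∃ κ : k, (degF c 0 ≠ 1 → κ = 0) ∧
          ∀ (L : Type u) [LieRing L] [LieAlgebra k L] (f : Fin 3 → L), evM f c = κ • f 0 := by
      intro c hc hc'
      have h12 : degF c 1 = 0 ∧ degF c 2 = 0 := by
        have hh : ∀ i : Fin 3, i ≠ 0 → degF c i = 0 := by
          intro i hi
          rcases hall i with rfl | rfl | rfl
          · exact absurd rfl hi
          · exact hc
          · exact hc'
        exact ⟨hh 1 (by decide), hh 2 (by decide)⟩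
      exact nf00 c h12.1 h12.2
    have hcase : (degF a j = 1 ∧ degF b j = 0) ∨ (degF a j = 0 ∧ degF b j = 1) := by omega
    rcases hcase with ⟨ha1, hb1⟩ | ⟨ha1, hb1⟩
    · obtain ⟨κ, hκ⟩ := ha ha1 (by omega)
      obtain ⟨κ', h0, hκ'⟩ := hz b hb1 (by omega)
      by_cases h01 : degF b 0 = 1
      · refine ⟨κ * κ', ?_⟩
        intro L _ _ f
        have h3 : evM f (a * b) = ⁅evM f a, evM f b⁆ := rfl
        rw [h3, hκ L f, hκ' L f, smul_lie, lie_smul_self_right, smul_smul, hd, Finsupp.add_apply,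
          h01]
      · refine ⟨0, ?_⟩
        intro L _ _ f
        have h3 : evM f (a * b) = ⁅evM f a, evM f b⁆ := rfl
        rw [h3, hκ' L f, h0 h01, zero_smul, lie_zero, zero_smul]
    · obtain ⟨κ, hκ⟩ := hb hb1 (by omega)
      obtain ⟨κ', h0, hκ'⟩ := hz a ha1 (by omega)
      by_cases h01 : degF a 0 = 1
      · refine ⟨κ * (-κ'), ?_⟩
        intro L _ _ f
        have h3 : evM f (a * b) = ⁅evM f a, evM f b⁆ := rfl
        rw [h3, hκ L f, hκ' L f, lie_smul, lie_smul_self_left, smul_smul, hd, Finsupp.add_apply,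
          h01, add_comm 1]
      · refine ⟨0, ?_⟩
        intro L _ _ f
        have h3 : evM f (a * b) = ⁅evM f a, evM f b⁆ := rfl
        rw [h3, hκ' L f, h0 h01, zero_smul, zero_lie, zero_smul]

/-- the standard elements `[A Y^i, B Y^(d-i)]` -/
def std {L : Type u} [LieRing L] (f : Fin 3 → L) (d i : ℕ) : L :=
  ⁅rb (f 0) i (f 1), rb (f 0) (d - i) (f 2)⁆

theorem right_leibniz {L : Type u} [LieRing L] (p q y : L) :
    ⁅⁅p, q⁆, y⁆ = ⁅⁅p, y⁆, q⁆ + ⁅p, ⁅q, y⁆⁆ := by
  rw [← lie_skew, leibniz_lie, ← lie_skew y p, ← lie_skew y q, lie_neg, neg_lie]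
  abel

theorem std_lie {L : Type u} [LieRing L] (f : Fin 3 → L) {d i : ℕ} (hi : i ≤ d) :
    ⁅std f d i, f 0⁆ = std f (d + 1) i + std f (d + 1) (i + 1) := by
  unfold std
  have e2 : d + 1 - i = d - i + 1 := by omega
  have e3 : d + 1 - (i + 1) = d - i := by omega
  rw [e2, e3, rb_succ, rb_succ, right_leibniz, add_comm]

/-- bracket of a standard sum with a multiple of `y` -/
theorem sum_std_lie (d : ℕ) (κ : ℕ → k) (κ' : k) : ∃ κ'' : ℕ → k,
    ∀ (L : Type u) [LieRing L] [LieAlgebra k L] (f : Fin 3 → L),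
    ⁅∑ i ∈ Finset.range (d + 1), κ i • std f d i, κ' • f 0⁆ =
      ∑ i ∈ Finset.range (d + 1 + 1), κ'' i • std f (d + 1) i := by
  refine ⟨fun i => κ' * ((if i < d + 1 then κ i else 0) + (if 1 ≤ i then κ (i - 1) else 0)), ?_⟩
  intro L _ _ f
  have e1 : ⁅∑ i ∈ Finset.range (d + 1), κ i • std f d i, κ' • f 0⁆ =
      ∑ i ∈ Finset.range (d + 1), (κ' * κ i) • (std f (d + 1) i + std f (d + 1) (i + 1)) := by
    rw [sum_lie]
    refine Finset.sum_congr rfl ?_
    intro i hi
    have hi' : i ≤ d := by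
      have := Finset.mem_range.mp hi
      omega
    rw [smul_lie, lie_smul, std_lie f hi', smul_smul, mul_comm]
  have e2 : ∑ i ∈ Finset.range (d + 1 + 1), (κ' * (if i < d + 1 then κ i else 0)) •
      std f (d + 1) i = ∑ i ∈ Finset.range (d + 1), (κ' * κ i) • std f (d + 1) i := by
    rw [Finset.sum_range_succ]
    rw [if_neg (lt_irrefl _), mul_zero, zero_smul, add_zero]
    refine Finset.sum_congr rfl ?_
    intro i hi
    rw [if_pos (Finset.mem_range.mp hi)]
  have e3 : ∑ i ∈ Finset.range (d + 1 + 1), (κ' * (if 1 ≤ i then κ (i - 1) else 0)) •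
      std f (d + 1) i = ∑ i ∈ Finset.range (d + 1), (κ' * κ i) • std f (d + 1) (i + 1) := by
    rw [Finset.sum_range_succ']
    rw [if_neg (by omega), mul_zero, zero_smul, add_zero]
    refine Finset.sum_congr rfl ?_
    intro i hi
    rw [if_pos (by omega), Nat.add_sub_cancel]
  rw [e1]
  simp only [smul_add, mul_add, add_smul, Finset.sum_add_distrib]
  rw [e2, e3]

/-- monomials with exactly one letter `1` and one letter `2` -/
theorem nf11 (ω : FreeMagma (Fin 3)) (h1 : degF ω 1 = 1) (h2 : degF ω 2 = 1) :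
    ∃ κ : ℕ → k, ∀ (L : Type u) [LieRing L] [LieAlgebra k L] (f : Fin 3 → L),
      evM f ω = ∑ i ∈ Finset.range (degF ω 0 + 1), κ i • std f (degF ω 0) i := by
  induction ω with
  | ih1 x =>
    have hd : degF (FreeMagma.of x) = Finsupp.single x 1 := rfl
    rw [hd] at h1 h2
    fin_cases x
    · simp at h1
    · simp at h2
    · simp at h1
  | ih2 a b ha hb =>
    have hd : degF (a * b) = degF a + degF b := rfl
    rw [hd, Finsupp.add_apply] at h1 h2
    have h3 : ∀ (L : Type u) [LieRing L] [LieAlgebra k L] (f : Fin 3 → L),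
      evM f (a * b) = ⁅evM f a, evM f b⁆ := fun _ _ _ _ => rfl
    have hcase : (degF a 1 = 1 ∧ degF b 1 = 0) ∨ (degF a 1 = 0 ∧ degF b 1 = 1) := by omega
    have hcase2 : (degF a 2 = 1 ∧ degF b 2 = 0) ∨ (degF a 2 = 0 ∧ degF b 2 = 1) := by omega
    rcases hcase with ⟨a1, b1⟩ | ⟨a1, b1⟩ <;> rcases hcase2 with ⟨a2, b2⟩ | ⟨a2, b2⟩
    · -- `b` is a power of `y`
      obtain ⟨κ, hκ⟩ := ha a1 a2
      obtain ⟨κ', h0, hκ'⟩ := nf00 (k := k) b b1 b2
      by_cases h01 : degF b 0 = 1
      · obtain ⟨κ'', hκ''⟩ := sum_std_lie (degF a 0) κ κ'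
        refine ⟨κ'', ?_⟩
        intro L _ _ f
        rw [h3, hκ L f, hκ' L f, hκ'' L f, hd, Finsupp.add_apply, h01]
      · refine ⟨0, ?_⟩
        intro L _ _ f
        rw [h3, hκ' L f, h0 h01, zero_smul, lie_zero]
        simp
    · -- one letter in each factor
      obtain ⟨κ, hκ⟩ := nf10 (k := k) 1 2 (by decide) (by decide) (by decide) a a1 a2
      obtain ⟨κ', hκ'⟩ := nf10 (k := k) 2 1 (by decide) (by decide) (by decide) b b2 b1
      refine ⟨fun i => if i = degF a 0 then κ * κ' else 0, ?_⟩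
      intro L _ _ f
      rw [h3, hκ L f, hκ' L f, smul_lie, lie_smul, smul_smul, hd, Finsupp.add_apply]
      simp only [ite_smul, zero_smul]
      rw [Finset.sum_ite_eq' , if_pos (Finset.mem_range.mpr (by omega))]
      unfold std
      rw [Nat.add_sub_cancel_left]
    · obtain ⟨κ, hκ⟩ := nf10 (k := k) 2 1 (by decide) (by decide) (by decide) a a2 a1
      obtain ⟨κ', hκ'⟩ := nf10 (k := k) 1 2 (by decide) (by decide) (by decide) b b1 b2
      refine ⟨fun i => if i = degF b 0 then -(κ * κ') else 0, ?_⟩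
      intro L _ _ f
      rw [h3, hκ L f, hκ' L f, smul_lie, lie_smul, smul_smul, hd, Finsupp.add_apply]
      simp only [ite_smul, zero_smul]
      rw [Finset.sum_ite_eq' , if_pos (Finset.mem_range.mpr (by omega))]
      unfold std
      rw [Nat.add_sub_cancel, ← lie_skew, smul_neg, neg_smul]
    · obtain ⟨κ, hκ⟩ := hb b1 b2
      obtain ⟨κ', h0, hκ'⟩ := nf00 (k := k) a a1 a2
      by_cases h01 : degF a 0 = 1
      · obtain ⟨κ'', hκ''⟩ := sum_std_lie (degF b 0) κ κ'
        refine ⟨fun i => -κ'' i, ?_⟩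
        intro L _ _ f
        rw [h3, hκ L f, hκ' L f, ← lie_skew, hκ'' L f, hd, Finsupp.add_apply, h01, add_comm 1]
        simp only [neg_smul, Finset.sum_neg_distrib]
      · refine ⟨0, ?_⟩
        intro L _ _ f
        rw [h3, hκ' L f, h0 h01, zero_smul, zero_lie]
        simp

end Pool.Agent.Lib.MP_240c17_al
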