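import Pool.Agent.Lib.MP_240c17_al.Defs
import Pool.Agent.Lib.MP_240c17_al.Mono

/-!
If a variety satisfies no identity of the form
`∑ c_i [a y^i, b y^(m-i)]`, it contains certain algebras of triangular matrices.
-/

set_option autoImplicit false

namespace Pool.Agent.Lib.MP_240c17_al

universe u

variable {k : Type u} [Field k]

/-- the variety satisfies no nontrivial identity `∑ c_i [a y^i, b y^(m-i)] = 0` -/
def NoId (Id : Set (FreeLieAlgebra k ℕ)) : Prop :=
  ∀ (m : ℕ) (c : ℕ → k), (∀ (L : Type u) [LieRing L] [LieAlgebra k L], InVariety Id L →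
    ∀ a b y : L, ∑ i ∈ Finset.range (m + 1),
      c i • ⁅rb y i a, rb y (m - i) b⁆ = 0) → ∀ i ∈ Finset.range (m + 1), c i = 0

theorem rb_smul {L : Type u} [LieRing L] [LieAlgebra k L] (y : L) (i : ℕ) (c : k) (l : L) :
    rb y i (c • l) = c • rb y i l := by
  induction i with
  | zero => rfl
  | succ i ih => rw [rb_succ, ih, smul_lie, rb_succ]

open scoped Classical in
/-- the homogeneous components of a consequence vanish in every algebra generated by elements for
which the monomials of degree at least two in the letters `1` and `2` vanish -/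
theorem component_general {Id : Set (FreeLieAlgebra k ℕ)} (hI : NoId Id)
    (c : FreeMagma (Fin 3) →₀ k) (δ : Fin 3 →₀ ℕ)
    (hc : ∀ (L : Type u) [LieRing L] [LieAlgebra k L], InVariety Id L → ∀ f : Fin 3 → L,
      ∑ ω ∈ c.support with degF ω = δ, c ω • evM f ω = 0)
    (L : Type u) [LieRing L] [LieAlgebra k L] (f : Fin 3 → L)
    (h1 : ∀ ω : FreeMagma (Fin 3), 2 ≤ degF ω 1 → evM f ω = 0)
    (h2 : ∀ ω : FreeMagma (Fin 3), 2 ≤ degF ω 2 → evM f ω = 0) :
    ∑ ω ∈ c.support with degF ω = δ, c ω • evM f ω = 0 := by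
  by_cases d1 : 2 ≤ δ 1
  · refine Finset.sum_eq_zero ?_
    intro ω hω
    rw [h1 ω (by rw [(Finset.mem_filter.mp hω).2]; exact d1), smul_zero]
  by_cases d2 : 2 ≤ δ 2
  · refine Finset.sum_eq_zero ?_
    intro ω hω
    rw [h2 ω (by rw [(Finset.mem_filter.mp hω).2]; exact d2), smul_zero]
  have hcases : (δ 1 = 0 ∧ δ 2 = 0) ∨ (δ 1 = 1 ∧ δ 2 = 0) ∨ (δ 1 = 0 ∧ δ 2 = 1) ∨
      (δ 1 = 1 ∧ δ 2 = 1) := by omega
  rcases hcases with ⟨e1, e2⟩ | ⟨e1, e2⟩ | ⟨e1, e2⟩ | ⟨e1, e2⟩
  · -- multiples of `y`
    have hex : ∀ ω : FreeMagma (Fin 3), ∃ κ : k, degF ω = δ →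
        ∀ (L : Type u) [LieRing L] [LieAlgebra k L] (f : Fin 3 → L), evM f ω = κ • f 0 := by
      intro ω
      by_cases hω : degF ω = δ
      · obtain ⟨κ, _, hκ⟩ := nf00 (k := k) ω (by rw [hω, e1]) (by rw [hω, e2])
        exact ⟨κ, fun _ => hκ⟩
      · exact ⟨0, fun h => absurd h hω⟩
    choose κ hκ using hex
    have hsum : ∀ (L : Type u) [LieRing L] [LieAlgebra k L] (f : Fin 3 → L),
        ∑ ω ∈ c.support with degF ω = δ, c ω • evM f ω =
          (∑ ω ∈ c.support with degF ω = δ, c ω * κ ω) • f 0 := by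
      intro L _ _ f
      rw [Finset.sum_smul]
      refine Finset.sum_congr rfl ?_
      intro ω hω
      rw [hκ ω (Finset.mem_filter.mp hω).2 L f, smul_smul]
    set C := ∑ ω ∈ c.support with degF ω = δ, c ω * κ ω with hC
    have hC0 : C = 0 := by
      by_contra hne
      have h3 := hI 0 (fun _ => 1) (by
        intro L _ _ hL a b y
        have h4 : ∀ l : L, l = 0 := by
          intro l
          have h5 := hc L hL (fun _ => l)
          rw [hsum] at h5
          exact (smul_eq_zero.mp h5).resolve_left hne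
        exact h4 _) 0 (by simp)
      exact one_ne_zero h3
    rw [hsum, hC0, zero_smul]
  · -- one letter `1`
    have hex : ∀ ω : FreeMagma (Fin 3), ∃ κ : k, degF ω = δ →
        ∀ (L : Type u) [LieRing L] [LieAlgebra k L] (f : Fin 3 → L),
          evM f ω = κ • rb (f 0) (δ 0) (f 1) := by
      intro ω
      by_cases hω : degF ω = δ
      · obtain ⟨κ, hκ⟩ := nf10 (k := k) 1 2 (by decide) (by decide) (by decide) ω
          (by rw [hω, e1]) (by rw [hω, e2])
        rw [hω] at hκ
        exact ⟨κ, fun _ => hκ⟩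
      · exact ⟨0, fun h => absurd h hω⟩
    choose κ hκ using hex
    have hsum : ∀ (L : Type u) [LieRing L] [LieAlgebra k L] (f : Fin 3 → L),
        ∑ ω ∈ c.support with degF ω = δ, c ω • evM f ω =
          (∑ ω ∈ c.support with degF ω = δ, c ω * κ ω) • rb (f 0) (δ 0) (f 1) := by
      intro L _ _ f
      rw [Finset.sum_smul]
      refine Finset.sum_congr rfl ?_
      intro ω hω
      rw [hκ ω (Finset.mem_filter.mp hω).2 L f, smul_smul]
    set C := ∑ ω ∈ c.support with degF ω = δ, c ω * κ ω with hC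
    have hC0 : C = 0 := by
      have h3 := hI (δ 0) (fun i => if i = δ 0 then C else 0) (by
        intro L _ _ hL a b y
        simp only [ite_smul, zero_smul]
        rw [Finset.sum_ite_eq', if_pos (by simp), ← smul_lie]
        have h5 := hc L hL ![y, a, 0]
        rw [hsum] at h5
        have h6 : C • rb y (δ 0) a = 0 := h5
        rw [h6, zero_lie]) (δ 0) (by simp)
      simpa using h3
    rw [hsum, hC0, zero_smul]
  · -- one letter `2`
    have hex : ∀ ω : FreeMagma (Fin 3), ∃ κ : k, degF ω = δ →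
        ∀ (L : Type u) [LieRing L] [LieAlgebra k L] (f : Fin 3 → L),
          evM f ω = κ • rb (f 0) (δ 0) (f 2) := by
      intro ω
      by_cases hω : degF ω = δ
      · obtain ⟨κ, hκ⟩ := nf10 (k := k) 2 1 (by decide) (by decide) (by decide) ω
          (by rw [hω, e2]) (by rw [hω, e1])
        rw [hω] at hκ
        exact ⟨κ, fun _ => hκ⟩
      · exact ⟨0, fun h => absurd h hω⟩
    choose κ hκ using hex
    have hsum : ∀ (L : Type u) [LieRing L] [LieAlgebra k L] (f : Fin 3 → L),
        ∑ ω ∈ c.support with degF ω = δ, c ω • evM f ω =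
          (∑ ω ∈ c.support with degF ω = δ, c ω * κ ω) • rb (f 0) (δ 0) (f 2) := by
      intro L _ _ f
      rw [Finset.sum_smul]
      refine Finset.sum_congr rfl ?_
      intro ω hω
      rw [hκ ω (Finset.mem_filter.mp hω).2 L f, smul_smul]
    set C := ∑ ω ∈ c.support with degF ω = δ, c ω * κ ω with hC
    have hC0 : C = 0 := by
      have h3 := hI (δ 0) (fun i => if i = 0 then C else 0) (by
        intro L _ _ hL a b y
        simp only [ite_smul, zero_smul]
        rw [Finset.sum_ite_eq', if_pos (by simp), ← lie_smul]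
        have h5 := hc L hL ![y, 0, b]
        rw [hsum] at h5
        have h6 : C • rb y (δ 0) b = 0 := h5
        rw [Nat.sub_zero, h6, lie_zero]) 0 (by simp)
      simpa using h3
    rw [hsum, hC0, zero_smul]
  · -- one letter `1` and one letter `2`
    have hex : ∀ ω : FreeMagma (Fin 3), ∃ κ : ℕ → k, degF ω = δ →
        ∀ (L : Type u) [LieRing L] [LieAlgebra k L] (f : Fin 3 → L),
          evM f ω = ∑ i ∈ Finset.range (δ 0 + 1), κ i • std f (δ 0) i := by
      intro ω
      by_cases hω : degF ω = δ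
      · obtain ⟨κ, hκ⟩ := nf11 (k := k) ω (by rw [hω, e1]) (by rw [hω, e2])
        rw [hω] at hκ
        exact ⟨κ, fun _ => hκ⟩
      · exact ⟨0, fun h => absurd h hω⟩
    choose κ hκ using hex
    have hsum : ∀ (L : Type u) [LieRing L] [LieAlgebra k L] (f : Fin 3 → L),
        ∑ ω ∈ c.support with degF ω = δ, c ω • evM f ω =
          ∑ i ∈ Finset.range (δ 0 + 1), (∑ ω ∈ c.support with degF ω = δ, c ω * κ ω i) •
            std f (δ 0) i := by
      intro L _ _ f
      simp only [Finset.sum_smul]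
      rw [Finset.sum_comm]
      refine Finset.sum_congr rfl ?_
      intro ω hω
      rw [hκ ω (Finset.mem_filter.mp hω).2 L f, Finset.smul_sum]
      refine Finset.sum_congr rfl ?_
      intro i _
      rw [smul_smul]
    have hC0 := hI (δ 0) (fun i => ∑ ω ∈ c.support with degF ω = δ, c ω * κ ω i) (by
      intro L _ _ hL a b y
      have h5 := hc L hL ![y, a, b]
      rw [hsum] at h5
      exact h5)
    rw [hsum]
    refine Finset.sum_eq_zero ?_
    intro i hi
    rw [hC0 i hi, zero_smul]

/-- consequence for whole elements -/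
theorem vanish_general [Infinite k] {Id : Set (FreeLieAlgebra k ℕ)} (hI : NoId Id)
    (w : FreeLieAlgebra k (Fin 3))
    (hw : ∀ (L : Type u) [LieRing L] [LieAlgebra k L], InVariety Id L → ∀ f : Fin 3 → L,
      FreeLieAlgebra.lift k f w = 0)
    (L : Type u) [LieRing L] [LieAlgebra k L] (f : Fin 3 → L)
    (h1 : ∀ ω : FreeMagma (Fin 3), 2 ≤ degF ω 1 → evM f ω = 0)
    (h2 : ∀ ω : FreeMagma (Fin 3), 2 ≤ degF ω 2 → evM f ω = 0) :
    FreeLieAlgebra.lift k f w = 0 := by
  classical
  obtain ⟨c, hc⟩ := exists_coeff w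
  rw [hc L f, Finsupp.sum, ← Finset.sum_fiberwise_of_maps_to (s := c.support)
    (t := c.support.image degF) (g := degF) (fun ω hω => Finset.mem_image_of_mem _ hω)]
  refine Finset.sum_eq_zero ?_
  intro δ _
  refine component_general hI c δ ?_ L f h1 h2
  intro L' _ _ hL' f'
  have h3 : ∀ t : Fin 3 → k, c.sum (fun ω a => a • evM (fun i => t i • f' i) ω) = 0 := by
    intro t
    rw [← hc L' (fun i => t i • f' i)]
    exact hw L' hL' _
  have h4 := component_eq_zero c f' h3 δ
  convert h4

end Pool.Agent.Lib.MP_240c17_al
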