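import Pool.Agent.Lib.MP_240c17_al.Func
import Pool.Agent.Lib.MP_240c17_al.Fin

/-!
# A necessary condition for all varieties of Lie algebras over an infinite field

If every relatively finitely presented algebra of a variety is residually finite dimensional, then the
variety satisfies a nontrivial identity `∑ c_i [a y^i, b y^(m-i)] = 0`.

Idea.  In every finite dimensional Lie algebra the relations `[x,z] = 0`, `[a,z] = a`,
`b₁ + [b₁,z] = b` with `b₁ = b - [b,x]`, `[a,b] = 0` imply `[a,b₁] = 0` (`fd_quasi`).  If the variety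
satisfies no identity of the above form, it contains the Lie algebra of upper triangular matrices
with diagonal `(0, p, p/T)` over the functions of `T ∈ kˣ` (`func_vanish`), and modulo the ideal
`k[1/T] E₁₃` the implication fails for `x = diag(0,T,1)`, `z = diag(0,1,1/T)`, `a = E₁₂`, `b = E₂₃`.
-/

set_option autoImplicit false
set_option linter.unusedSimpArgs false

namespace Pool.Agent.Lib.MP_240c17_al.Nec1

open Pool.Agent.Lib.MP_240c17_al

universe u

attribute [local instance 100] LieRing.ofAssociativeRing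

section

variable (k : Type u) [Field k]

/-- the free generators -/
noncomputable abbrev X : FreeLieAlgebra k (Fin 4) := FreeLieAlgebra.of k 0
noncomputable abbrev Z : FreeLieAlgebra k (Fin 4) := FreeLieAlgebra.of k 1
noncomputable abbrev A : FreeLieAlgebra k (Fin 4) := FreeLieAlgebra.of k 2
noncomputable abbrev B : FreeLieAlgebra k (Fin 4) := FreeLieAlgebra.of k 3

/-- the relators -/
noncomputable def rels : Finset (FreeLieAlgebra k (Fin 4)) := by
  classical
  exact {⁅X k, Z k⁆, ⁅A k, Z k⁆ - A k, (B k - ⁅B k, X k⁆ + ⁅B k - ⁅B k, X k⁆, Z k⁆) - B k, ⁅A k, B k⁆}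

theorem mem_rels (w : FreeLieAlgebra k (Fin 4)) : w ∈ rels k ↔ w = ⁅X k, Z k⁆ ∨
    w = ⁅A k, Z k⁆ - A k ∨ w = (B k - ⁅B k, X k⁆ + ⁅B k - ⁅B k, X k⁆, Z k⁆) - B k ∨
    w = ⁅A k, B k⁆ := by
  unfold rels
  simp only [Finset.mem_insert, Finset.mem_singleton]

/-- images of the generators -/
theorem gX : FreeLieAlgebra.lift k (gen k) (X k) = Matrix.diagonal ![0, fT k, 1] :=
  FreeLieAlgebra.lift_of_apply _ _
theorem gZ : FreeLieAlgebra.lift k (gen k) (Z k) = Matrix.diagonal ![0, 1, fS k] :=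
  FreeLieAlgebra.lift_of_apply _ _
theorem gA : FreeLieAlgebra.lift k (gen k) (A k) = Matrix.single 0 1 1 :=
  FreeLieAlgebra.lift_of_apply _ _
theorem gB : FreeLieAlgebra.lift k (gen k) (B k) = Matrix.single 1 2 1 :=
  FreeLieAlgebra.lift_of_apply _ _

theorem gXZ : FreeLieAlgebra.lift k (gen k) ⁅X k, Z k⁆ = 0 := by
  rw [LieHom.map_lie, gX, gZ, Ring.lie_def, Matrix.diagonal_mul_diagonal,
    Matrix.diagonal_mul_diagonal, sub_eq_zero]
  congr 1
  funext i
  exact mul_comm _ _

theorem gAZ : FreeLieAlgebra.lift k (gen k) ⁅A k, Z k⁆ = Matrix.single 0 1 1 := by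
  rw [LieHom.map_lie, gA, gZ, Ring.lie_def]
  ext i j
  fin_cases i <;> fin_cases j <;> simp [Matrix.single_apply]

theorem gB1 : FreeLieAlgebra.lift k (gen k) (B k - ⁅B k, X k⁆) = Matrix.single 1 2 (fT k) := by
  rw [map_sub, LieHom.map_lie, gB, gX, Ring.lie_def]
  ext i j
  fin_cases i <;> fin_cases j <;> simp [Matrix.single_apply]

theorem gB2 : FreeLieAlgebra.lift k (gen k) ⁅B k - ⁅B k, X k⁆, Z k⁆ =
    Matrix.single 1 2 (1 - fT k) := by
  rw [LieHom.map_lie, gB1, gZ, Ring.lie_def]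
  have h := fT_mul_fS (k := k)
  ext1 i j
  fin_cases i <;> fin_cases j <;> simp [Matrix.single_apply, h]

theorem gAB : FreeLieAlgebra.lift k (gen k) ⁅A k, B k⁆ = Matrix.single 0 2 1 := by
  rw [LieHom.map_lie, gA, gB, Ring.lie_def]
  ext i j
  fin_cases i <;> fin_cases j <;> simp [Matrix.single_apply]

theorem gAB1 : FreeLieAlgebra.lift k (gen k) ⁅A k, B k - ⁅B k, X k⁆⁆ = Matrix.single 0 2 (fT k) := by
  rw [LieHom.map_lie, gA, gB1, Ring.lie_def]
  ext i j
  fin_cases i <;> fin_cases j <;> simp [Matrix.single_apply]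

theorem rels_le : LieSubmodule.lieSpan k (FreeLieAlgebra k (Fin 4))
    (rels k : Set (FreeLieAlgebra k (Fin 4))) ≤ pullback k := by
  rw [LieSubmodule.lieSpan_le]
  intro w hw
  rcases (mem_rels k w).mp hw with rfl | rfl | rfl | rfl
  · exact ⟨0, (W k).zero_mem, by rw [gXZ, Matrix.single_zero]⟩
  · exact ⟨0, (W k).zero_mem, by rw [map_sub, gAZ, gA, sub_self, Matrix.single_zero]⟩
  · refine ⟨0, (W k).zero_mem, ?_⟩
    rw [map_sub, map_add, gB1, gB2, gB, ← Matrix.single_add, add_sub_cancel, sub_self,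
      Matrix.single_zero]
  · exact ⟨1, one_mem_W, gAB k⟩

theorem verbal_le [Infinite k] {Id : Set (FreeLieAlgebra k ℕ)} (hI : NoId Id) :
    verbalIdeal Id 4 ≤ pullback k := by
  unfold verbalIdeal
  rw [LieSubmodule.lieSpan_le]
  rintro w ⟨g, hg, ρ, rfl⟩
  refine ⟨0, (W k).zero_mem, ?_⟩
  rw [← LieHom.comp_apply, ← FreeLieAlgebra.lift_comp_of ((FreeLieAlgebra.lift k (gen k)).comp
    (FreeLieAlgebra.lift k ρ)), Matrix.single_zero]
  refine func_vanish hI hg _ ?_
  intro n
  show FreeLieAlgebra.lift k (gen k) (FreeLieAlgebra.lift k ρ (FreeLieAlgebra.of k n)) ∈ triAlg k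
  exact lift_mem (triAlg k) (gen k) gen_mem _

theorem not_mem_pullback [Infinite k] : ⁅A k, B k - ⁅B k, X k⁆⁆ ∉ pullback k := by
  rintro ⟨f, hf, h⟩
  rw [gAB1] at h
  have h1 : fT k = f := by
    have := congrFun (congrFun h 0) 2
    simpa using this
  rw [← h1] at hf
  exact fT_not_mem_W hf

end

/-- If all relatively finitely presented algebras of a variety of Lie algebras over an infinite field
are residually finite dimensional, then the variety satisfies an identity
`∑_{i=0}^m c_i [[a,y,…,y], [b,y,…,y]] = 0` (`y` occurs `i` times in the first and `m - i` times in the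
second factor) with not all `c_i` zero. -/
theorem necessary (k : Type u) [Field k] [Infinite k] (Id : Set (FreeLieAlgebra k ℕ))
    (h : ∀ (L : Type u) [LieRing L] [LieAlgebra k L], RelFinitelyPresented Id L →
      ResiduallyFiniteDimensional k L) :
    ∃ (m : ℕ) (c : ℕ → k), (∃ i ≤ m, c i ≠ 0) ∧
      ∀ (L : Type u) [LieRing L] [LieAlgebra k L], InVariety Id L → ∀ a b y : L,
        ∑ i ∈ Finset.range (m + 1),
          c i • ⁅(fun l => ⁅l, y⁆)^[i] a, (fun l => ⁅l, y⁆)^[m - i] b⁆ = 0 := by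
  by_contra hno
  push Not at hno
  have hI : NoId Id := by
    intro m c hc i hi
    by_contra hne
    obtain ⟨L, _, _, hL, a, b, y, hne'⟩ := hno m c ⟨i, by simpa [Nat.lt_succ_iff] using hi, hne⟩
    exact hne' (hc L hL a b y)
  -- the relatively finitely presented algebra
  let J : LieIdeal k (FreeLieAlgebra k (Fin 4)) := verbalIdeal Id 4 ⊔
    LieSubmodule.lieSpan k (FreeLieAlgebra k (Fin 4)) (rels k : Set (FreeLieAlgebra k (Fin 4)))
  have hJ : J ≤ pullback k := sup_le (verbal_le k hI) (rels_le k)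
  have hfp : RelFinitelyPresented Id (FreeLieAlgebra k (Fin 4) ⧸ J) :=
    ⟨4, qMk J, rels k, qMk_surjective J, qMk_ker J⟩
  have hζ : qMk J ⁅A k, B k - ⁅B k, X k⁆⁆ ≠ 0 := by
    intro h0
    exact not_mem_pullback k (hJ ((qMk_eq_zero J _).mp h0))
  obtain ⟨I, hfd, hI'⟩ := h _ hfp _ hζ
  apply hI'
  rw [← qMk_eq_zero I]
  -- the relations hold in the finite dimensional quotient
  have hrel : ∀ w ∈ rels k, qMk I (qMk J w) = 0 := by
    intro w hw
    have h1 : w ∈ J := (le_sup_right : _ ≤ J) (LieSubmodule.subset_lieSpan hw)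
    rw [(qMk_eq_zero J w).mpr h1, map_zero]
  have r1 := hrel _ ((mem_rels k _).mpr (Or.inl rfl))
  have r2 := hrel _ ((mem_rels k _).mpr (Or.inr (Or.inl rfl)))
  have r3 := hrel _ ((mem_rels k _).mpr (Or.inr (Or.inr (Or.inl rfl))))
  have r4 := hrel _ ((mem_rels k _).mpr (Or.inr (Or.inr (Or.inr rfl))))
  simp only [map_sub, map_add, LieHom.map_lie] at r1 r2 r3 r4 ⊢
  exact fd_quasi (k := k) _ _ _ _ r1 (sub_eq_zero.mp r2) (sub_eq_zero.mp r3) r4

end Pool.Agent.Lib.MP_240c17_al.Nec1
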