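import Pool.Agent.Lib.MP_240c17_al.Nec

/-!
Triangular matrices.
-/

set_option autoImplicit false

namespace Pool.Agent.Lib.MP_240c17_al

universe u

variable {k : Type u} [Field k]

attribute [local instance 100] LieRing.ofAssociativeRing

/-- the generators `D = diag(0,1,μ)`, `E₁₂`, `E₂₃` -/
def fB (μ : k) : Fin 3 → Matrix (Fin 3) (Fin 3) k :=
  ![Matrix.diagonal ![0, 1, μ], Matrix.single 0 1 1, Matrix.single 1 2 1]

def wA : Fin 3 → ℕ := ![0, 1, 1]
def wB : Fin 3 → ℕ := ![0, 0, 1]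

theorem evM_fB (μ : k) (ω : FreeMagma (Fin 3)) : ∀ i j : Fin 3, evM (fB μ) ω i j ≠ 0 →
    wA j = wA i + degF ω 1 ∧ wB j = wB i + degF ω 2 := by
  induction ω with
  | ih1 x =>
    intro i j h
    have hd : degF (FreeMagma.of x) = Finsupp.single x 1 := rfl
    have he : evM (fB μ) (FreeMagma.of x) = fB μ x := rfl
    rw [hd]
    rw [he] at h
    fin_cases x
    · have hij : i = j := by
        by_contra hne
        exact h (Matrix.diagonal_apply_ne _ hne)
      subst hij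
      simp
    · have hij : i = 0 ∧ j = 1 := by
        by_contra hne
        apply h
        show Matrix.single (0 : Fin 3) (1 : Fin 3) (1 : k) i j = 0
        rw [Matrix.single_apply]
        rw [if_neg]
        rintro ⟨rfl, rfl⟩
        exact hne ⟨rfl, rfl⟩
      obtain ⟨rfl, rfl⟩ := hij
      simp [wA, wB]
    · have hij : i = 1 ∧ j = 2 := by
        by_contra hne
        apply h
        show Matrix.single (1 : Fin 3) (2 : Fin 3) (1 : k) i j = 0
        rw [Matrix.single_apply]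
        rw [if_neg]
        rintro ⟨rfl, rfl⟩
        exact hne ⟨rfl, rfl⟩
      obtain ⟨rfl, rfl⟩ := hij
      simp [wA, wB]
  | ih2 a b ha hb =>
    intro i j h
    have hd : degF (a * b) = degF a + degF b := rfl
    have he : evM (fB μ) (a * b) = ⁅evM (fB μ) a, evM (fB μ) b⁆ := rfl
    rw [he, Ring.lie_def, Matrix.sub_apply, Matrix.mul_apply, Matrix.mul_apply] at h
    rw [hd, Finsupp.add_apply, Finsupp.add_apply]
    have hex : (∃ l, evM (fB μ) a i l * evM (fB μ) b l j ≠ 0) ∨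
        (∃ l, evM (fB μ) b i l * evM (fB μ) a l j ≠ 0) := by
      by_contra hne
      push Not at hne
      apply h
      rw [Finset.sum_eq_zero (fun l _ => hne.1 l), Finset.sum_eq_zero (fun l _ => hne.2 l), sub_zero]
    rcases hex with ⟨l, hl⟩ | ⟨l, hl⟩
    · have h1 := ha i l (left_ne_zero_of_mul hl)
      have h2 := hb l j (right_ne_zero_of_mul hl)
      omega
    · have h1 := hb i l (left_ne_zero_of_mul hl)
      have h2 := ha l j (right_ne_zero_of_mul hl)
      omega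

theorem evM_fB_one (μ : k) (ω : FreeMagma (Fin 3)) (h : 2 ≤ degF ω 1) : evM (fB μ) ω = 0 := by
  ext i j
  by_contra hne
  have h1 := (evM_fB μ ω i j hne).1
  have h2 : wA j ≤ 1 := by fin_cases j <;> simp [wA]
  omega

theorem evM_fB_two (μ : k) (ω : FreeMagma (Fin 3)) (h : 2 ≤ degF ω 2) : evM (fB μ) ω = 0 := by
  ext i j
  by_contra hne
  have h1 := (evM_fB μ ω i j hne).2
  have h2 : wB j ≤ 1 := by fin_cases j <;> simp [wB]
  omega

/-- upper triangular matrices with diagonal `(0, p, μ p)` -/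
def IsTri (μ : k) (M : Matrix (Fin 3) (Fin 3) k) : Prop :=
  M 1 0 = 0 ∧ M 2 0 = 0 ∧ M 2 1 = 0 ∧ M 0 0 = 0 ∧ M 2 2 = μ * M 1 1

theorem IsTri.eq {μ : k} {M : Matrix (Fin 3) (Fin 3) k} (h : IsTri μ M) :
    M = M 1 1 • fB μ 0 + M 0 1 • fB μ 1 + M 1 2 • fB μ 2 + M 0 2 • ⁅fB μ 1, fB μ 2⁆ := by
  obtain ⟨h1, h2, h3, h4, h5⟩ := h
  ext i j
  fin_cases i <;> fin_cases j <;>
    simp [fB, Ring.lie_def, h1, h2, h3, h4, h5, mul_comm]

/-- the identities of the variety hold for triangular matrices -/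
theorem tri_vanish [Infinite k] {Id : Set (FreeLieAlgebra k ℕ)} (hI : NoId Id)
    {g : FreeLieAlgebra k ℕ} (hg : g ∈ Id) (μ : k) (ρ : ℕ → Matrix (Fin 3) (Fin 3) k)
    (hρ : ∀ n, IsTri μ (ρ n)) : FreeLieAlgebra.lift k ρ g = 0 := by
  let θ : FreeLieAlgebra k ℕ →ₗ⁅k⁆ FreeLieAlgebra k (Fin 3) :=
    FreeLieAlgebra.lift k (fun n => ρ n 1 1 • FreeLieAlgebra.of k (0 : Fin 3) +
      ρ n 0 1 • FreeLieAlgebra.of k (1 : Fin 3) + ρ n 1 2 • FreeLieAlgebra.of k (2 : Fin 3) +
      ρ n 0 2 • ⁅FreeLieAlgebra.of k (1 : Fin 3), FreeLieAlgebra.of k (2 : Fin 3)⁆)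
  have h1 : (FreeLieAlgebra.lift k (fB μ)).comp θ = FreeLieAlgebra.lift k ρ := by
    apply FreeLieAlgebra.hom_ext
    intro n
    rw [LieHom.comp_apply, FreeLieAlgebra.lift_of_apply, FreeLieAlgebra.lift_of_apply]
    simp only [map_add, map_smul, LieHom.map_lie, FreeLieAlgebra.lift_of_apply]
    exact (hρ n).eq.symm
  rw [← h1, LieHom.comp_apply]
  refine vanish_general hI (θ g) ?_ _ (fB μ) (evM_fB_one μ) (evM_fB_two μ)
  intro L _ _ hL f
  rw [← LieHom.comp_apply, ← FreeLieAlgebra.lift_comp_of ((FreeLieAlgebra.lift k f).comp θ)]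
  exact hL g hg _

end Pool.Agent.Lib.MP_240c17_al
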